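import Mathlib
import Pool.Agent.H.MP_7e1e73_al.E

set_option autoImplicit false

namespace Pool.Agent.Results.MP_7e1e73_al.Full

open Pool.Agent.H.MP_7e1e73_al Module

variable {k L : Type} [Field k] [LieRing L] [LieAlgebra k L]

noncomputable def conc (G : ℕ → Submodule k L) (i : ℕ) (h : ∀ j, j ≠ i → Subsingleton (Hc G i j)) :
    Hc G i i ≃ₗ[k] HH G i :=
  LinearEquiv.ofBijective (DirectSum.lof k ℕ (fun j => Hc G i j) i)
    ⟨DirectSum.of_injective i, fun z => ⟨z i, by
      ext j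
      by_cases e : j = i
      · subst e; simp
      · exact @Subsingleton.elim _ (h j e) _ _⟩⟩

theorem result (k L : Type) [Field k] [LieRing L] [LieAlgebra k L] (G : ℕ → Submodule k L)
    (hG : Graded G) (hBK : BK G) (n : ℕ) (hn : IsGreatest {m | Nontrivial (HH G m)} n) :
    0 ≤ ((n : ℤ) - 1) * (finrank k (HH G 1) : ℤ) ^ 2 - 2 * n * finrank k (HH G 2) := by
  obtain ⟨P⟩ := exists_proj hG
  have := hG.2.2.1 1
  have := hG.2.2.1 2
  obtain ⟨⟨⟨f1, s1⟩, s2⟩, s3⟩ := hBK
  obtain ⟨ω, hω, eω⟩ := exists_om P (Module.finBasis k (G 2))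
  have t : Subsingleton (Hc G (n + 1) (n + 1)) := by
    by_contra h
    have := not_subsingleton_iff_nontrivial.1 h
    have := hn.2 (show Nontrivial (HH G (n + 1)) from (DirectSum.of_injective (n + 1)).nontrivial)
    omega
  obtain ⟨t0, t1⟩ := turan hω (h3_of P _ hω eω fun T hT => (s3 T hT).2 3 (by decide)) n ⊥
    fun a ha => top P _ hω eω n t ha
  have h1 := b1 P (Module.Finite.equiv (conc G 1 s1).symm)
  have h2 := b2 P _ hω eω
  rw [← (conc G 1 s1).finrank_eq, ← (conc G 2 s2).finrank_eq]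
  rw [finrank_bot] at t1
  rcases Nat.eq_zero_or_pos n with rfl | hp
  · have : Subsingleton (Hc G 1 1) := t
    simp [finrank_zero_of_subsingleton]
  · zify at h1 h2 hp
    have h3 : ((n : ℤ) - 1) * (finrank k (Dual k (G 1)) : ℤ) ^ 2 ≤ (n - 1) * (finrank k (Hc G 1 1) : ℤ) ^ 2 :=
      mul_le_mul_of_nonneg_left (pow_le_pow_left₀ (by positivity) h1 2) (by omega)
    simp only [Nat.cast_zero, sub_zero] at t1
    nlinarith

end Pool.Agent.Results.MP_7e1e73_al.Full
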